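import Pool.Agent.R178.HY.All

set_option autoImplicit false

namespace Pool.Agent.Results.MP_e42343_co.PrincipalityFails

open Filter Topology

/-- The Hamilton cycle `c` (a cyclic ordering of the `n` points, indexed by `ZMod n`) is
`x`-acceptable for `F`: no member of `F` is a union of intervals
`{c (t i + 1), …, c (t i + x i)}` of the cycle. -/
def Acc {n : ℕ} (x : List ℕ) (F : Finset (Finset (Fin n))) (c : ZMod n ≃ Fin n) : Prop :=
  ¬ ∃ t : Fin x.length → ZMod n,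
    (Finset.univ.biUnion fun i =>
      (Finset.range (x.get i)).image fun j : ℕ => c (t i + 1 + (j : ZMod n))) ∈ F

/-- `m(x, n)`: the least number of members of a family `F` of `r`-sets (`r = x.sum`) such that
no Hamilton cycle is `x`-acceptable for `F`. -/
noncomputable def m1 (x : List ℕ) (n : ℕ) : ℕ :=
  sInf {N | ∃ F : Finset (Finset (Fin n)), (∀ A ∈ F, A.card = x.sum) ∧ F.card = N ∧
    ¬ ∃ c, Acc x F c}

/-- `m(x, y, n)`: the least number of members of a family `F` of `r`-sets such that no Hamilton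
cycle is both `x`-acceptable and `y`-acceptable for `F`. -/
noncomputable def m2 (x y : List ℕ) (n : ℕ) : ℕ :=
  sInf {N | ∃ F : Finset (Finset (Fin n)), (∀ A ∈ F, A.card = x.sum) ∧ F.card = N ∧
    ¬ ∃ c, Acc x F c ∧ Acc y F c}

theorem m1_eq (x : List ℕ) (n : ℕ) : m1 x n = Pool.Agent.R178.HY.m1 x n := rfl

theorem m2_eq (x y : List ℕ) (n : ℕ) : m2 x y n = Pool.Agent.R178.HY.m2 x y n := rfl

/-- The answer to Q1 is no. For `x = (3,1,1)` and `y = (2,2,1)` both `m(x,n)` and `m(y,n)` exceed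
`n ^ 2 / 17` for all large `n`, but `m(x,y,n) ≤ n ^ 2 / 18` for infinitely many `n`; hence
`m(x,y,n) ≤ (17/18) min (m(x,n), m(y,n))` for infinitely many `n`, and the asymptotic equality
`m(x,y,n) = (1 + o(1)) min (m(x,n), m(y,n))` does not hold for all `x`, `y` with equal sums. -/
theorem result :
    (∀ᶠ n : ℕ in atTop, (n : ℝ) ^ 2 / 17 < m1 [3, 1, 1] n ∧ (n : ℝ) ^ 2 / 17 < m1 [2, 2, 1] n) ∧
    (∃ᶠ n : ℕ in atTop, (m2 [3, 1, 1] [2, 2, 1] n : ℝ) ≤ (n : ℝ) ^ 2 / 18) ∧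
    (∃ᶠ n : ℕ in atTop, (m2 [3, 1, 1] [2, 2, 1] n : ℝ) ≤
      17 / 18 * min (m1 [3, 1, 1] n : ℝ) (m1 [2, 2, 1] n)) ∧
    ¬ ∀ x y : List ℕ, (∀ i ∈ x, 0 < i) → (∀ i ∈ y, 0 < i) → x.sum = y.sum →
      ∃ e : ℕ → ℝ, Tendsto e atTop (𝓝 0) ∧ ∀ᶠ n : ℕ in atTop,
        (m2 x y n : ℝ) = (1 + e n) * min (m1 x n : ℝ) (m1 y n) := by
  have b := Pool.Agent.R178.HY.bounds
  simp only [m1_eq, m2_eq]
  exact ⟨b.1, b.2, Pool.Agent.R178.HY.answer b⟩

end Pool.Agent.Results.MP_e42343_co.PrincipalityFails
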